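import Pool.Agent.H30.LT.Targets

/-!
# MP_70ba79_ag, board al_modules, row PLK: two of the linear forms generate the ideal
-/

set_option autoImplicit false

namespace Pool.Agent.H68.LT.PLK

open MvPolynomial SC Pool.Agent.H27.LV Pool.Agent.H30.AV Pool.Agent.H30.AW Pool.Agent.H30.AX
  Pool.Agent.H30.LT

theorem plk_coef {F : Type} [Field F] {n : ℕ} {W : Zw n → F} {p p' : Fin (n + 1)} (hW : Rk2 W)
    (h0 : W (p, p') ≠ 0) (s t : Fin (n + 1)) :
    W (s, t) = -W (p', s) / W (p, p') * W (p, t) + W (p, s) / W (p, p') * W (p', t) := by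
  have h1 := hW.2.2 p p' s t
  field_simp
  linear_combination h1

/-- Row PLK -/
theorem pf_PLK : T_PLK := by
  intro F _ n W p p' hW h0
  refine ⟨fun s => ⟨_, _, fun t => plk_coef hW h0 s t⟩, fun q i => ?_⟩
  refine le_antisymm ?_ ?_
  · refine Ideal.span_le.2 ?_
    rintro _ ⟨s, rfl⟩
    have e : lf W q i s = C (-W (p', s) / W (p, p')) * lf W q i p +
        C (W (p, s) / W (p, p')) * lf W q i p' := by
      unfold lf
      rw [Finset.mul_sum, Finset.mul_sum, ← Finset.sum_add_distrib]
      refine Finset.sum_congr rfl fun t _ => ?_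
      rw [plk_coef hW h0 s t, C_add, C_mul, C_mul]
      ring
    change lf W q i s ∈ _
    rw [e]
    refine Ideal.add_mem _ ?_ ?_
    · exact Ideal.mul_mem_left _ _ (Ideal.subset_span (by simp))
    · exact Ideal.mul_mem_left _ _ (Ideal.subset_span (by simp))
  · refine Ideal.span_le.2 ?_
    rintro g hg
    rcases hg with rfl | hg
    · exact Ideal.subset_span ⟨p', rfl⟩
    · rw [Set.mem_singleton_iff] at hg
      subst hg
      exact Ideal.subset_span ⟨p, rfl⟩

end Pool.Agent.H68.LT.PLK
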