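import Pool.Agent.H30.LT.Targets
import Pool.Agent.H56.AW.MUL

/-!
# MP_70ba79_ag, board al_modules, row PSI: the ideals `nI` in other coordinates
-/

set_option autoImplicit false

namespace Pool.Agent.H68.LT.PSI

open MvPolynomial SC Pool.Agent.H27.LV Pool.Agent.H30.AV Pool.Agent.H30.AW Pool.Agent.H30.AX
  Pool.Agent.H30.LT

section

variable {R : Type} [CommRing R] {n : ℕ}

theorem psub_X_p' (W : Zw n → R) (q : ℕ) (p p' : Fin (n + 1)) (i : Fin q) :
    psub W q p p' (X (i, p')) = X (i, p') -
      ∑ t ∈ Finset.univ.filter (fun t => t ≠ p ∧ t ≠ p'), C (W (p, t)) * X (i, t) := by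
  unfold psub
  rw [aeval_X]
  exact if_pos rfl

theorem psub_X_p (W : Zw n → R) (q : ℕ) {p p' : Fin (n + 1)} (hp : p ≠ p') (i : Fin q) :
    psub W q p p' (X (i, p)) = - X (i, p) +
      ∑ t ∈ Finset.univ.filter (fun t => t ≠ p ∧ t ≠ p'), C (W (p', t)) * X (i, t) := by
  unfold psub
  rw [aeval_X]
  exact (if_neg hp).trans (if_pos rfl)

theorem psub_X_t (W : Zw n → R) (q : ℕ) {p p' t : Fin (n + 1)} (hp : t ≠ p) (hp' : t ≠ p')
    (i : Fin q) : psub W q p p' (X (i, t)) = C (W (p, p')) * X (i, t) := by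
  unfold psub
  rw [aeval_X]
  exact (if_neg hp').trans (if_neg hp)

theorem psub_C (W : Zw n → R) (q : ℕ) (p p' : Fin (n + 1)) (r : R) :
    psub W q p p' (C r) = C r := by
  unfold psub
  rw [aeval_C]
  rfl

/-- split a sum over all indices -/
theorem sum_split {M : Type} [AddCommMonoid M] {p p' : Fin (n + 1)} (hp : p ≠ p')
    (f : Fin (n + 1) → M) : ∑ t, f t =
      f p + f p' + ∑ t ∈ Finset.univ.filter (fun t => t ≠ p ∧ t ≠ p'), f t := by
  have e : (Finset.univ : Finset (Fin (n + 1))) =
      insert p (insert p' (Finset.univ.filter (fun t => t ≠ p ∧ t ≠ p'))) := by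
    ext t
    simp only [Finset.mem_univ, Finset.mem_insert, Finset.mem_filter, true_and, true_iff]
    tauto
  conv_lhs => rw [e]
  rw [Finset.sum_insert, Finset.sum_insert, add_assoc]
  · simp
  · simp [hp]

/-- `psub` of a linear form -/
theorem psub_lf_p {W : Zw n → R} (hW : Rk2 W) (q : ℕ) {p p' : Fin (n + 1)} (hp : p ≠ p')
    (i : Fin q) : psub W q p p' (lf W q i p) = C (W (p, p')) * X (i, p') := by
  unfold lf
  rw [sum_split hp, map_add, map_add, map_sum, map_mul, map_mul, psub_C, psub_C, hW.1 p,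
    psub_X_p', C_0, zero_mul, zero_add, mul_sub, Finset.mul_sum]
  have e : ∑ t ∈ Finset.univ.filter (fun t => t ≠ p ∧ t ≠ p'),
      psub W q p p' (C (W (p, t)) * X (i, t)) =
      ∑ t ∈ Finset.univ.filter (fun t => t ≠ p ∧ t ≠ p'),
        C (W (p, p')) * (C (W (p, t)) * X (i, t)) := by
    refine Finset.sum_congr rfl fun t ht => ?_
    have ht' := (Finset.mem_filter.1 ht).2
    rw [map_mul, psub_C, psub_X_t W q ht'.1 ht'.2]
    ring
  rw [e]
  ring

theorem psub_lf_p' {W : Zw n → R} (hW : Rk2 W) (q : ℕ) {p p' : Fin (n + 1)} (hp : p ≠ p')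
    (i : Fin q) : psub W q p p' (lf W q i p') = C (W (p, p')) * X (i, p) := by
  unfold lf
  rw [sum_split hp, map_add, map_add, map_sum, map_mul, map_mul, psub_C, psub_C, hW.1 p',
    hW.2.1 p' p, psub_X_p W q hp, C_0, zero_mul, add_zero, mul_add, Finset.mul_sum]
  have e : ∑ t ∈ Finset.univ.filter (fun t => t ≠ p ∧ t ≠ p'),
      psub W q p p' (C (W (p', t)) * X (i, t)) =
      ∑ t ∈ Finset.univ.filter (fun t => t ≠ p ∧ t ≠ p'),
        C (W (p, p')) * (C (W (p', t)) * X (i, t)) := by
    refine Finset.sum_congr rfl fun t ht => ?_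
    have ht' := (Finset.mem_filter.1 ht).2
    rw [map_mul, psub_C, psub_X_t W q ht'.1 ht'.2]
    ring
  have e2 : ∑ t ∈ Finset.univ.filter (fun t => t ≠ p ∧ t ≠ p'),
      C (-W (p, p')) * (C (W (p', t)) * X (i, t)) =
      - ∑ t ∈ Finset.univ.filter (fun t => t ≠ p ∧ t ≠ p'),
        (C (W (p, p')) * (C (W (p', t)) * X (i, t)) : MvPolynomial (Lw q n) R) := by
    rw [← Finset.sum_neg_distrib]
    refine Finset.sum_congr rfl fun t _ => ?_
    rw [C_neg]
    ring
  rw [e, e2, C_neg]
  ring

/-- naturality -/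
theorem map_psub {S : Type} [CommRing S] (φ : R →+* S) (W : Zw n → R) (q : ℕ)
    (p p' : Fin (n + 1)) (G : MvPolynomial (Lw q n) R) :
    MvPolynomial.map φ (psub W q p p' G) =
      psub (fun z => φ (W z)) q p p' (MvPolynomial.map φ G) := by
  induction G using MvPolynomial.induction_on with
  | C a => rw [psub_C, map_C, psub_C]
  | add f g hf hg => rw [map_add, map_add, hf, hg, map_add, map_add]
  | mul_X f v hf =>
    rw [map_mul, map_mul, hf, map_mul, map_mul, map_X]
    congr 1
    unfold psub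
    rw [aeval_X, aeval_X]
    by_cases h1 : v.2 = p'
    · rw [if_pos h1, if_pos h1, map_sub, map_sum, map_X]
      congr 1
      refine Finset.sum_congr rfl fun t _ => ?_
      rw [map_mul, map_C, map_X]
    · rw [if_neg h1, if_neg h1]
      by_cases h2 : v.2 = p
      · rw [if_pos h2, if_pos h2, map_add, map_sum, map_neg, map_X]
        congr 1
        refine Finset.sum_congr rfl fun t _ => ?_
        rw [map_mul, map_C, map_X]
      · rw [if_neg h2, if_neg h2, map_mul, map_C, map_X]

end

/-- a left inverse of `psub` -/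
noncomputable def psi {F : Type} [Field F] {n : ℕ} (W : Zw n → F) (q : ℕ)
    (p p' : Fin (n + 1)) : MvPolynomial (Lw q n) F →ₐ[F] MvPolynomial (Lw q n) F :=
  aeval fun v => if v.2 = p' then
      X v + ∑ t ∈ Finset.univ.filter (fun t => t ≠ p ∧ t ≠ p'),
        C (W (p, t) / W (p, p')) * X (v.1, t)
    else if v.2 = p then
      - X v + ∑ t ∈ Finset.univ.filter (fun t => t ≠ p ∧ t ≠ p'),
        C (W (p', t) / W (p, p')) * X (v.1, t)
    else C (W (p, p'))⁻¹ * X v

section

variable {F : Type} [Field F] {n : ℕ}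

theorem psi_X_p' (W : Zw n → F) (q : ℕ) (p p' : Fin (n + 1)) (i : Fin q) :
    psi W q p p' (X (i, p')) = X (i, p') +
      ∑ t ∈ Finset.univ.filter (fun t => t ≠ p ∧ t ≠ p'),
        C (W (p, t) / W (p, p')) * X (i, t) := by
  unfold psi
  rw [aeval_X]
  exact if_pos rfl

theorem psi_X_p (W : Zw n → F) (q : ℕ) {p p' : Fin (n + 1)} (hp : p ≠ p') (i : Fin q) :
    psi W q p p' (X (i, p)) = - X (i, p) +
      ∑ t ∈ Finset.univ.filter (fun t => t ≠ p ∧ t ≠ p'),
        C (W (p', t) / W (p, p')) * X (i, t) := by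
  unfold psi
  rw [aeval_X]
  exact (if_neg hp).trans (if_pos rfl)

theorem psi_X_t (W : Zw n → F) (q : ℕ) {p p' t : Fin (n + 1)} (hp : t ≠ p) (hp' : t ≠ p')
    (i : Fin q) : psi W q p p' (X (i, t)) = C (W (p, p'))⁻¹ * X (i, t) := by
  unfold psi
  rw [aeval_X]
  exact (if_neg hp').trans (if_neg hp)

theorem psi_C (W : Zw n → F) (q : ℕ) (p p' : Fin (n + 1)) (r : F) :
    psi W q p p' (C r) = C r := by
  unfold psi
  rw [aeval_C]
  rfl

theorem psi_psub {W : Zw n → F} {q : ℕ} {p p' : Fin (n + 1)} (hp : p ≠ p')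
    (h0 : W (p, p') ≠ 0) (G : MvPolynomial (Lw q n) F) :
    psi W q p p' (psub W q p p' G) = G := by
  have key : ∀ (a : Fin (n + 1) → F) (i : Fin q),
      psi W q p p' (∑ t ∈ Finset.univ.filter (fun t => t ≠ p ∧ t ≠ p'), C (a t) * X (i, t)) =
        ∑ t ∈ Finset.univ.filter (fun t => t ≠ p ∧ t ≠ p'),
          C (a t / W (p, p')) * X (i, t) := by
    intro a i
    rw [map_sum]
    refine Finset.sum_congr rfl fun t ht => ?_
    have ht' := (Finset.mem_filter.1 ht).2
    rw [map_mul, psi_C, psi_X_t W q ht'.1 ht'.2, ← mul_assoc, ← C_mul, div_eq_mul_inv]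
  induction G using MvPolynomial.induction_on with
  | C a => rw [psub_C, psi_C]
  | add f g hf hg => rw [map_add, map_add, hf, hg]
  | mul_X f v hf =>
    rw [map_mul, map_mul, hf]
    congr 1
    obtain ⟨i, t⟩ := v
    by_cases h1 : t = p'
    · subst h1
      rw [psub_X_p', map_sub, psi_X_p', key]
      ring
    · by_cases h2 : t = p
      · subst h2
        rw [psub_X_p W q hp, map_add, map_neg, psi_X_p W q hp, key]
        ring
      · rw [psub_X_t W q h2 h1, map_mul, psi_C, psi_X_t W q h2 h1, ← mul_assoc, ← C_mul,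
          mul_inv_cancel₀ h0, C_1, one_mul]

end

/-- the powers of an ideal generated by two variables -/
theorem mem_pow_span_X {L σ : Type} [Field L] {a b : σ} (hab : a ≠ b) (w : ℕ)
    (G : MvPolynomial σ L) :
    G ∈ (Ideal.span {X a, X b} : Ideal (MvPolynomial σ L)) ^ w ↔
      ∀ m : σ →₀ ℕ, m a + m b < w → coeff m G = 0 := by
  classical
  constructor
  · intro h m hm
    by_contra hc
    have := Pool.Agent.H56.AW.span_le_Jd a b w h m hc
    omega
  · intro h
    rw [G.as_sum]
    refine Ideal.sum_mem _ fun m hm => ?_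
    have h1 : w ≤ m a + m b := by
      by_contra hc
      exact (mem_support_iff.1 hm) (h m (by omega))
    have e : monomial m (coeff m G) =
        monomial (m - Finsupp.single a (m a) - Finsupp.single b (m b)) (coeff m G) *
          (X a ^ m a * X b ^ m b) := by
      have e1 : m - Finsupp.single a (m a) - Finsupp.single b (m b) +
          (Finsupp.single a (m a) + Finsupp.single b (m b)) = m := by
        ext s
        simp only [Finsupp.add_apply, Finsupp.tsub_apply, Finsupp.single_apply]
        by_cases h2 : a = s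
        · subst h2
          rw [if_pos rfl, if_neg (Ne.symm hab)]
          omega
        · rw [if_neg h2]
          by_cases h3 : b = s
          · subst h3
            rw [if_pos rfl]
            omega
          · rw [if_neg h3]
            omega
      rw [X_pow_eq_monomial, X_pow_eq_monomial, monomial_mul, monomial_mul, one_mul, mul_one, e1]
    rw [e]
    exact Ideal.mul_mem_left _ _ (Pool.Agent.H56.AW.pow_mul_mem _ _ _ _ _ h1)

/-- Row PSI -/
theorem pf_PSI (hPLK : T_PLK) : T_PSI := by
  intro F _ n W p p' hW h0 q w i G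
  have hp : p ≠ p' := by
    rintro rfl
    exact h0 (hW.1 p)
  have hne : ((i, p) : Lw q n) ≠ (i, p') := fun h => hp (congrArg Prod.snd h)
  rw [← mem_pow_span_X hne, (hPLK F n W p p' hW h0).2 q i]
  have hI : (Ideal.span {lf W q i p', lf W q i p}).map (psub W q p p') ≤
      Ideal.span {X (i, p), X (i, p')} := by
    rw [Ideal.map_span, Ideal.span_le]
    rintro _ ⟨g, hg, rfl⟩
    rcases hg with rfl | hg
    · rw [psub_lf_p' hW q hp]
      exact Ideal.mul_mem_left _ _ (Ideal.subset_span (by simp))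
    · rw [Set.mem_singleton_iff] at hg
      subst hg
      rw [psub_lf_p hW q hp]
      exact Ideal.mul_mem_left _ _ (Ideal.subset_span (by simp))
  have hX : ∀ (t s : Fin (n + 1)), psub W q p p' (lf W q i s) = C (W (p, p')) * X (i, t) →
      psi W q p p' (X (i, t)) = C (W (p, p'))⁻¹ * lf W q i s := by
    intro t s h
    have h1 := congrArg (psi W q p p') h
    rw [psi_psub hp h0, map_mul, psi_C] at h1
    rw [h1, ← mul_assoc, ← C_mul, inv_mul_cancel₀ h0, C_1, one_mul]
  have hJ : (Ideal.span {X (i, p), X (i, p')}).map (psi W q p p') ≤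
      Ideal.span {lf W q i p', lf W q i p} := by
    rw [Ideal.map_span, Ideal.span_le]
    rintro _ ⟨g, hg, rfl⟩
    rcases hg with rfl | hg
    · change psi W q p p' (X (i, p)) ∈ _
      rw [hX p p' (psub_lf_p' hW q hp i)]
      exact Ideal.mul_mem_left _ _ (Ideal.subset_span (by simp))
    · rw [Set.mem_singleton_iff] at hg
      subst hg
      change psi W q p p' (X (i, p')) ∈ _
      rw [hX p' p (psub_lf_p hW q hp i)]
      exact Ideal.mul_mem_left _ _ (Ideal.subset_span (by simp))
  constructor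
  · intro h
    have h1 := Ideal.mem_map_of_mem (psub W q p p') h
    rw [Ideal.map_pow] at h1
    exact Ideal.pow_right_mono hI w h1
  · intro h
    have h1 := Ideal.mem_map_of_mem (psi W q p p') h
    rw [Ideal.map_pow, psi_psub hp h0] at h1
    exact Ideal.pow_right_mono hJ w h1

end Pool.Agent.H68.LT.PSI
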